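import Mathlib

open Finset

namespace Pool.Agent.Results.MP_85e029_nt.Counter

/-- the spectrum of `q` with digits `0, …, m` -/
def X (m : ℕ) (q : ℂ) : Set ℂ :=
  {z | ∃ (n : ℕ) (a : ℕ → ℕ), (∀ j, a j ≤ m) ∧ z = ∑ j ∈ range (n + 1), (a j : ℂ) * q ^ j}

/-- relatively dense subsets of the plane -/
def RelDense (S : Set ℂ) : Prop := ∃ R : ℝ, 0 < R ∧ ∀ c : ℂ, ∃ x ∈ S, x ∈ Metric.closedBall c R

/-- complex Pisot units -/
def PisotUnit (g : ℂ) : Prop :=
  g.im ≠ 0 ∧ 1 < ‖g‖ ∧ IsIntegral ℤ g ∧ IsIntegral ℤ g⁻¹ ∧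
    ∀ z ∈ (minpoly ℚ g).aroots ℂ, z = g ∨ z = (starRingEnd ℂ) g ∨ ‖z‖ < 1

lemma normT (l : ℂ) (hl : ‖l‖ ≤ 1 / 10) (k : ℕ) : ∀ a : ℕ → ℕ, (∀ j, a j ≤ 101) →
    ‖∑ i ∈ range k, (a i : ℂ) * l ^ i‖ ≤ 113 := by
  induction k with
  | zero => intro a _; simp
  | succ k ih =>
    intro a ha
    rw [sum_range_succ']
    have e : ∑ i ∈ range k, (a (i + 1) : ℂ) * l ^ (i + 1) =
        l * ∑ i ∈ range k, (a (i + 1) : ℂ) * l ^ i := by
      rw [mul_sum]
      exact sum_congr rfl fun i _ => by ring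
    rw [e]
    have h1 := ih (fun i => a (i + 1)) (fun j => ha _)
    have h2 : ‖(a 0 : ℂ) * l ^ 0‖ ≤ 101 := by
      simp only [pow_zero, mul_one, Complex.norm_natCast]
      exact_mod_cast ha 0
    refine (norm_add_le _ _).trans ?_
    rw [norm_mul]
    nlinarith [norm_nonneg l, norm_nonneg (∑ i ∈ range k, (a (i + 1) : ℂ) * l ^ i)]

lemma reT (l : ℂ) (hl : ‖l‖ ≤ 1 / 10) (h1 : 0 ≤ l.re) (h2 : 0 ≤ (l ^ 2).re) (k : ℕ)
    (a : ℕ → ℕ) (ha : ∀ j, a j ≤ 101) :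
    (a 0 : ℝ) - 1 / 8 ≤ (∑ i ∈ range (k + 1), (a i : ℂ) * l ^ i).re := by
  have t1 : 0 ≤ ((a 1 : ℂ) * l ^ 1).re := by
    rw [pow_one, Complex.mul_re, Complex.natCast_re, Complex.natCast_im, zero_mul, sub_zero]
    positivity
  have t2 : 0 ≤ ((a 2 : ℂ) * l ^ 2).re := by
    rw [Complex.mul_re, Complex.natCast_re, Complex.natCast_im, zero_mul, sub_zero]
    positivity
  have t0 : ((a 0 : ℂ) * l ^ 0).re = a 0 := by simp
  rcases k with _ | _ | k
  · rw [sum_range_one, t0]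
    linarith
  · rw [sum_range_succ, sum_range_one, Complex.add_re, t0]
    linarith
  · rw [show k + 1 + 1 + 1 = 3 + k by ring, sum_range_add, sum_range_succ, sum_range_succ,
      sum_range_one, Complex.add_re, Complex.add_re, Complex.add_re, t0]
    have e : ∑ i ∈ range k, (a (3 + i) : ℂ) * l ^ (3 + i) =
        l ^ 3 * ∑ i ∈ range k, (a (3 + i) : ℂ) * l ^ i := by
      rw [mul_sum]
      exact sum_congr rfl fun i _ => by ring
    rw [e]
    have n1 := normT l hl k (fun i => a (3 + i)) (fun j => ha _)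
    have n2 : ‖l ^ 3 * ∑ i ∈ range k, (a (3 + i) : ℂ) * l ^ i‖ ≤ 1 / 8 := by
      rw [norm_mul, norm_pow]
      calc _ ≤ (1 / 10) ^ 3 * (113 : ℝ) := by gcongr
        _ ≤ 1 / 8 := by norm_num
    have n3 := Complex.abs_re_le_norm (l ^ 3 * ∑ i ∈ range k, (a (3 + i) : ℂ) * l ^ i)
    have n4 := neg_abs_le (l ^ 3 * ∑ i ∈ range k, (a (3 + i) : ℂ) * l ^ i).re
    linarith

lemma refl (g : ℂ) (hg : g ≠ 0) (k : ℕ) (a : ℕ → ℕ) :
    ∑ j ∈ range (k + 1), (a j : ℂ) * g ^ j =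
      g ^ k * ∑ i ∈ range (k + 1), (a (k - i) : ℂ) * g⁻¹ ^ i := by
  rw [← sum_range_reflect, mul_sum]
  apply sum_congr rfl
  intro i hi
  have hi' : i ≤ k := by have := mem_range.1 hi; omega
  rw [Nat.add_sub_cancel, pow_sub₀ g hg hi', inv_pow]
  ring

lemma far (g : ℂ) (hg : 10 ≤ ‖g‖) (h1 : 0 ≤ g⁻¹.re) (h2 : 0 ≤ (g⁻¹ ^ 2).re) (n s : ℕ)
    (a : ℕ → ℕ) (ha : ∀ j, a j ≤ 101) :
    7 / 8 * ‖g‖ ^ n ≤ ‖∑ j ∈ range (n + s + 1), (a j : ℂ) * g ^ j + g ^ n‖ := by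
  have hg0 : g ≠ 0 := by
    intro h
    rw [h, norm_zero] at hg
    linarith
  have hl : ‖g⁻¹‖ ≤ 1 / 10 := by
    rw [norm_inv, ← one_div]
    exact one_div_le_one_div_of_le (by norm_num) hg
  induction s with
  | zero =>
    rw [add_zero, refl g hg0, ← mul_add_one, norm_mul, norm_pow, mul_comm]
    apply mul_le_mul_of_nonneg_left _ (by positivity)
    refine le_trans ?_ (Complex.re_le_norm _)
    have := reT g⁻¹ hl h1 h2 n (fun i => a (n - i)) (fun j => ha _)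
    rw [Complex.add_re, Complex.one_re]
    have : (0 : ℝ) ≤ a (n - 0) := Nat.cast_nonneg _
    linarith
  | succ s ih =>
    rcases Nat.eq_zero_or_pos (a (n + s + 1)) with h0 | h0
    · rw [← add_assoc, sum_range_succ, h0]
      simpa using ih
    · have r := reT g⁻¹ hl h1 h2 (n + s + 1) (fun i => a (n + s + 1 - i)) (fun j => ha _)
      have r1 : (1 : ℝ) ≤ a (n + s + 1 - 0) := by exact_mod_cast h0
      have r2 := Complex.re_le_norm
        (∑ i ∈ range (n + s + 1 + 1), (a (n + s + 1 - i) : ℂ) * g⁻¹ ^ i)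
      have r3 : 7 / 8 * (10 * ‖g‖ ^ n) ≤
          ‖∑ j ∈ range (n + s + 1 + 1), (a j : ℂ) * g ^ j‖ := by
        rw [refl g hg0, norm_mul, norm_pow, mul_comm]
        apply mul_le_mul _ (by linarith) (by norm_num) (by positivity)
        rw [pow_succ, pow_add]
        have : 1 ≤ ‖g‖ ^ s := one_le_pow₀ (by linarith)
        have p : 0 ≤ ‖g‖ ^ n := by positivity
        calc 10 * ‖g‖ ^ n = ‖g‖ ^ n * 1 * 10 := by ring
          _ ≤ _ := by gcongr
      have r4 := norm_sub_norm_le (∑ j ∈ range (n + s + 1 + 1), (a j : ℂ) * g ^ j) (-g ^ n)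
      rw [sub_neg_eq_add, norm_neg, norm_pow] at r4
      rw [← add_assoc]
      have p : 0 ≤ ‖g‖ ^ n := by positivity
      linarith

lemma not_dense (g : ℂ) (hg : 10 ≤ ‖g‖) (h1 : 0 ≤ g⁻¹.re) (h2 : 0 ≤ (g⁻¹ ^ 2).re) :
    ¬ RelDense (X 101 g) := by
  rintro ⟨R, hR, h⟩
  obtain ⟨n, hn⟩ := pow_unbounded_of_one_lt (8 / 7 * R) (show 1 < ‖g‖ by linarith)
  obtain ⟨x, ⟨N, a, ha, rfl⟩, hx⟩ := h (-g ^ n)
  rw [Metric.mem_closedBall, dist_eq_norm, sub_neg_eq_add] at hx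
  have e : ∑ j ∈ range (N + 1), (a j : ℂ) * g ^ j =
      ∑ j ∈ range (n + N + 1), (((if j < N + 1 then a j else 0 : ℕ)) : ℂ) * g ^ j := by
    rw [show n + N + 1 = N + 1 + n by ring, sum_range_add _ (N + 1) n]
    rw [sum_eq_zero (s := range n), add_zero]
    · apply sum_congr rfl
      intro j hj
      rw [if_pos (mem_range.1 hj)]
    · intro j _
      rw [if_neg (by omega)]
      simp
  rw [e] at hx
  have := far g hg h1 h2 n N (fun j => if j < N + 1 then a j else 0) (by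
    intro j
    split_ifs
    · exact ha j
    · norm_num)
  linarith

lemma exists_t : ∃ t : ℝ, 0 < t ∧ t < 1 / 100 ∧ t ^ 3 - 20 * t ^ 2 + 101 * t - 1 = 0 := by
  have hc : ContinuousOn (fun t : ℝ => t ^ 3 - 20 * t ^ 2 + 101 * t - 1) (Set.Icc 0 (1 / 100)) := by
    fun_prop
  have := intermediate_value_Ioo (show (0 : ℝ) ≤ 1 / 100 by norm_num) hc
  obtain ⟨t, ht, h⟩ := this (show (0 : ℝ) ∈ _ by constructor <;> norm_num)
  exact ⟨t, ht.1, ht.2, h⟩

theorem result : ∃ (g : ℂ) (m : ℕ), PisotUnit g ∧ ‖g‖ ^ 2 - 1 < m ∧ ¬ RelDense (X m g) := by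
  obtain ⟨t, t0, t1, ht⟩ := exists_t
  have hb : 0 < 1 - 10 * t + 3 / 4 * t ^ 2 := by nlinarith
  obtain ⟨b, hb0, hb2⟩ : ∃ b : ℝ, 0 < b ∧ b ^ 2 = 1 - 10 * t + 3 / 4 * t ^ 2 :=
    ⟨Real.sqrt _, Real.sqrt_pos.2 hb, Real.sq_sqrt hb.le⟩
  set g : ℂ := ⟨10 - t / 2, b⟩ with hg
  have hn : ‖g‖ ^ 2 = 101 - 20 * t + t ^ 2 := by
    rw [Complex.sq_norm, Complex.normSq_apply]
    simp only [hg]
    nlinarith
  have hn10 : 10 ≤ ‖g‖ := by
    by_contra hc
    push Not at hc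
    nlinarith [norm_nonneg g]
  have hg0 : g ≠ 0 := by
    intro h
    rw [h, norm_zero] at hn10
    linarith
  have hs : g + (starRingEnd ℂ) g = 20 - t := by
    apply Complex.ext <;> simp [hg]
    ring
  have hp : g * (starRingEnd ℂ) g = 101 - 20 * t + t ^ 2 := by
    rw [Complex.mul_conj, Complex.normSq_eq_norm_sq, hn]
    push_cast
    rfl
  have htc : (t : ℂ) ^ 3 - 20 * t ^ 2 + 101 * t - 1 = 0 := by exact_mod_cast ht
  have hfac : ∀ z : ℂ, z ^ 3 - 20 * z ^ 2 + 101 * z - 1 =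
      (z - g) * (z - (starRingEnd ℂ) g) * (z - t) := by
    intro z
    linear_combination (z ^ 2 - z * t) * hs - (z - t) * hp + htc
  have hroot : g ^ 3 - 20 * g ^ 2 + 101 * g - 1 = 0 := by rw [hfac]; ring
  have hint : IsIntegral ℤ g := by
    refine ⟨Polynomial.X ^ 3 - 20 * Polynomial.X ^ 2 + 101 * Polynomial.X - 1, by monicity!, ?_⟩
    simpa using hroot
  have hinv : g⁻¹ = g ^ 2 - 20 * g + 101 := by
    field_simp
    linear_combination -hroot
  refine ⟨g, 101, ⟨hb0.ne', by linarith, hint, ?_, ?_⟩, ?_, not_dense g hn10 ?_ ?_⟩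
  · rw [hinv]
    have h20 : IsIntegral ℤ (20 : ℂ) := by exact_mod_cast isIntegral_algebraMap (x := (20 : ℤ))
    have h101 : IsIntegral ℤ (101 : ℂ) := by exact_mod_cast isIntegral_algebraMap (x := (101 : ℤ))
    exact ((hint.pow 2).sub (h20.mul hint)).add h101
  · intro z hz
    have hd : minpoly ℚ g ∣
        Polynomial.X ^ 3 - 20 * Polynomial.X ^ 2 + 101 * Polynomial.X - 1 := by
      apply minpoly.dvd
      simpa [map_ofNat] using hroot
    have hz0 := (Polynomial.mem_aroots.1 hz).2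
    have := Polynomial.aeval_eq_zero_of_dvd_aeval_eq_zero hd hz0
    have h3 : z ^ 3 - 20 * z ^ 2 + 101 * z - 1 = 0 := by simpa [map_ofNat] using this
    rw [hfac] at h3
    rcases mul_eq_zero.1 h3 with h | h
    · rcases mul_eq_zero.1 h with h | h
      · exact Or.inl (sub_eq_zero.1 h)
      · exact Or.inr (Or.inl (sub_eq_zero.1 h))
    · right; right
      rw [sub_eq_zero.1 h, Complex.norm_real, Real.norm_eq_abs, abs_of_pos t0]
      linarith
  · rw [hn]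
    push_cast
    nlinarith
  · rw [Complex.inv_re]
    apply div_nonneg _ (Complex.normSq_nonneg _)
    simp only [hg]
    linarith
  · rw [inv_pow, Complex.inv_re]
    apply div_nonneg _ (Complex.normSq_nonneg _)
    rw [sq, Complex.mul_re]
    simp only [hg]
    nlinarith

end Pool.Agent.Results.MP_85e029_nt.Counter
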